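import Pool.Agent.Helper21.W4.St1

set_option autoImplicit false

namespace Pool.Agent.Helper28.W4

open Pool.Agent.Helper21.W4 Finset

theorem sq_le {B : ℕ} {s : ℕ → ℕ} (h : Sq B s) (p : ℕ) : s p ≤ B := by
  rcases h.bd p with h | h <;> omega

theorem cj_symm {s t : ℕ → ℕ} (h : Cj s t) : Cj t s := fun p q => (h q p).symm

theorem key {B : ℕ} {s t : ℕ → ℕ} (hs : Sq B s) (ht : Sq B t) (hc : Cj s t) {p : ℕ}
    (hp : p ∈ cor B s) : s p - 1 ∈ cor B t ∧ t (s p - 1) - 1 = p := by
  simp only [cor, mem_filter, mem_range] at hp ⊢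
  obtain ⟨hpB, hp1, hp2, hp3⟩ := hp
  have a1 : p < t (s p - 1) := (hc p (s p - 1)).1 (by omega)
  have a2 : ¬ (p + 1 < t (s p - 1)) := fun h => by
    have := (hc (p + 1) (s p - 1)).2 h
    omega
  have a3 : ¬ (p < t (s p)) := fun h => by
    have := (hc p (s p)).2 h
    omega
  have e : s p - 1 + 1 = s p := by omega
  have hb := sq_le hs p
  refine ⟨⟨by omega, by omega, by omega, ?_⟩, by omega⟩
  rw [e]
  omega

theorem area {B : ℕ} {s t : ℕ → ℕ} (hs : Sq B s) (ht : Sq B t) (hc : Cj s t) :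
    ar B s = ar B t := by
  have hsub : ∀ {s : ℕ → ℕ}, Sq B s → ∀ p,
      s (p + 1) - 1 = ∑ q ∈ range B, (if q + 1 < s (p + 1) then 1 else 0) := by
    intro s h p
    rw [← Finset.card_filter]
    have : (range B).filter (fun q => q + 1 < s (p + 1)) = range (s (p + 1) - 1) := by
      ext q
      have := sq_le h (p + 1)
      simp only [mem_filter, mem_range]
      omega
    rw [this, card_range]
  unfold ar
  rw [sum_congr rfl (fun p _ => hsub hs p), sum_congr rfl (fun p _ => hsub ht p), sum_comm]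
  refine sum_congr rfl fun q _ => sum_congr rfl fun p _ => ?_
  have := hc (p + 1) (q + 1)
  simp only [this]

theorem bij {B : ℕ} {s t : ℕ → ℕ} (hs : Sq B s) (ht : Sq B t) (hc : Cj s t)
    (P Q : ℕ → Prop) [DecidablePred P] [DecidablePred Q]
    (hPQ : ∀ p ∈ cor B s, P p ↔ Q (s p - 1)) :
    ((cor B s).filter P).card = ((cor B t).filter Q).card := by
  refine Finset.card_nbij' (fun p => s p - 1) (fun q => t q - 1) ?_ ?_ ?_ ?_
  · intro p hp
    have hp' := mem_filter.1 (mem_coe.1 hp)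
    exact mem_coe.2 (mem_filter.2 ⟨(key hs ht hc hp'.1).1, (hPQ p hp'.1).1 hp'.2⟩)
  · intro q hq
    have hq' := mem_filter.1 (mem_coe.1 hq)
    have k := key ht hs (cj_symm hc) hq'.1
    refine mem_coe.2 (mem_filter.2 ⟨k.1, (hPQ _ k.1).2 ?_⟩)
    rw [k.2]
    exact hq'.2
  · intro p hp
    have hp' := mem_filter.1 (mem_coe.1 hp)
    exact (key hs ht hc hp'.1).2
  · intro q hq
    have hq' := mem_filter.1 (mem_coe.1 hq)
    exact (key ht hs (cj_symm hc) hq'.1).2

theorem hTr : StTr := by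
  intro B s t hs ht hc
  refine ⟨area hs ht hc, ?_, ?_, ?_⟩
  · have := bij hs ht hc (fun _ => True) (fun _ => True) (fun _ _ => Iff.rfl)
    simpa using this
  · intro v
    unfold dd
    exact bij hs ht hc _ _ (fun p _ => Iff.rfl)
  · intro u v
    unfold kk
    refine bij hs ht hc _ _ (fun p hp => ?_)
    have k := (key hs ht hc hp).2
    rw [k]
    exact or_comm

end Pool.Agent.Helper28.W4
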